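import Pool.Agent.helper91.RB.Spec1

/-!
# Row rb:FE (MP_24e2e7_nt): the functional equation
-/

set_option autoImplicit false

namespace Pool.Agent.RB

open NumberField NumberField.InfinitePlace NumberField.Units NumberField.Units.dirichletUnitTheorem
open MeasureTheory Filter Topology Module
open scoped nonZeroDivisors Real Classical

theorem FE_open : IsOpen ({0, 1}ᶜ : Set ℂ) := (Set.toFinite ({0, 1} : Set ℂ)).isClosed.isOpen_compl

theorem FE_conn : IsPreconnected ({0, 1}ᶜ : Set ℂ) := by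
  apply IsConnected.isPreconnected
  apply Set.Countable.isConnected_compl_of_one_lt_rank
  · rw [Complex.rank_real_complex]
    norm_num
  · exact (Set.toFinite ({0, 1} : Set ℂ)).countable

theorem FE_mem {s : ℂ} : s ∈ ({0, 1}ᶜ : Set ℂ) ↔ s ≠ 0 ∧ s ≠ 1 := by
  simp

/-- identity theorem -/
theorem FE_id {f g : ℂ → ℂ} (hf : DifferentiableOn ℂ f {0, 1}ᶜ) (hg : DifferentiableOn ℂ g {0, 1}ᶜ)
    (h : ∀ s : ℂ, 1 < s.re → f s = g s) : ∀ s : ℂ, s ≠ 0 → s ≠ 1 → f s = g s := by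
  intro s h0 h1
  have h2 : (2 : ℂ) ∈ ({0, 1}ᶜ : Set ℂ) := by
    rw [FE_mem]
    norm_num
  have hev : f =ᶠ[𝓝 (2 : ℂ)] g := by
    have ho : IsOpen {s : ℂ | 1 < s.re} := isOpen_lt continuous_const Complex.continuous_re
    filter_upwards [ho.mem_nhds (show (2 : ℂ) ∈ {s : ℂ | 1 < s.re} by simp)] with z hz
    exact h z hz
  exact AnalyticOnNhd.eqOn_of_preconnected_of_eventuallyEq (hf.analyticOnNhd FE_open)
    (hg.analyticOnNhd FE_open) FE_conn h2 hev (FE_mem.2 ⟨h0, h1⟩)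

/-- the powers -/
theorem FE_pow {D n n' : ℝ} (hD : 0 < D) (hn : 0 < n) (hn' : 0 < n') (h : n' * (n * D) = 1) (s : ℂ) :
    (n : ℂ) ^ (1 - s) * (((Real.sqrt D * n)⁻¹ : ℝ) : ℂ) =
      (D : ℂ) ^ (s - 1 / 2) * (n' : ℂ) ^ s := by
  have hDc : (D : ℂ) ≠ 0 := by exact_mod_cast hD.ne'
  have hnc : (n : ℂ) ≠ 0 := by exact_mod_cast hn.ne'
  have e1 : (n' : ℂ) ^ s * ((n : ℂ) ^ s * (D : ℂ) ^ s) = 1 := by
    rw [← Complex.mul_cpow_ofReal_nonneg hn.le hD.le, ← Complex.ofReal_mul,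
      ← Complex.mul_cpow_ofReal_nonneg hn'.le (by positivity), ← Complex.ofReal_mul, h,
      Complex.ofReal_one, Complex.one_cpow]
  have e2 : ((Real.sqrt D : ℝ) : ℂ) = (D : ℂ) ^ (1 / 2 : ℂ) := by
    rw [Real.sqrt_eq_rpow, Complex.ofReal_cpow hD.le]
    push_cast
    rfl
  have hs : (D : ℂ) ^ (1 / 2 : ℂ) ≠ 0 := by
    rw [Ne, Complex.cpow_eq_zero_iff]
    intro h'
    exact hDc h'.1
  have hns : (n : ℂ) ^ s ≠ 0 := by
    rw [Ne, Complex.cpow_eq_zero_iff]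
    intro h'
    exact hnc h'.1
  rw [Complex.cpow_sub _ _ hnc, Complex.cpow_one, Complex.cpow_sub _ _ hDc]
  push_cast
  rw [e2]
  field_simp
  linear_combination (-1 : ℂ) * e1

theorem FE (hDUA : DUA_stmt) (hWFE : WFE_stmt) (hUNF : UNF_stmt) (hCLS : CLS_stmt) : FE_stmt := by
  intro K _ _
  obtain ⟨Λ, hΛ⟩ := hWFE K
  obtain ⟨c, hc, hU⟩ := hUNF K
  obtain ⟨R, hR0, hR⟩ := hCLS K
  have hcc : (c : ℂ) ≠ 0 := by exact_mod_cast hc.ne'
  have hdR0 : ∀ C, du K (R C) ≠ 0 := fun C => (hDUA K (R C) (hR0 C)).1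
  obtain ⟨D, hD⟩ : ∃ D : ℝ, D = |(discr K : ℝ)| := ⟨_, rfl⟩
  have hnn : ∀ J : FI K, J ≠ 0 → (0 : ℝ) < (FractionalIdeal.absNorm J : ℝ) := by
    intro J hJ
    have h1 := (hDUA K J hJ).2.2.2
    have h2 : (0 : ℝ) ≤ (FractionalIdeal.absNorm J : ℝ) := by
      exact_mod_cast FractionalIdeal.absNorm_nonneg J
    rcases h2.eq_or_lt with h3 | h3
    · rw [← h3, zero_mul, mul_zero] at h1
      exact absurd h1 (by norm_num)
    · exact h3
  have hD0 : 0 < D := by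
    rcases (abs_nonneg (discr K : ℝ)).eq_or_lt with h3 | h3
    · have h1 := (hDUA K 1 one_ne_zero).2.2.2
      rw [← h3, mul_zero, mul_zero] at h1
      exact absurd h1 (by norm_num)
    · rw [hD]
      exact h3
  -- the building block
  obtain ⟨F, hF⟩ : ∃ F : FI K → ℂ → ℂ, F = fun J s =>
      ((FractionalIdeal.absNorm J : ℝ) : ℂ) ^ s * Λ J s := ⟨_, rfl⟩
  have hFd : ∀ J : FI K, J ≠ 0 → DifferentiableOn ℂ (F J) {0, 1}ᶜ := by
    intro J hJ
    rw [hF]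
    apply DifferentiableOn.mul _ (hΛ J hJ).1
    intro s _
    apply DifferentiableAt.differentiableWithinAt
    apply DifferentiableAt.const_cpow differentiableAt_id
    left
    have := (hnn J hJ).ne'
    exact_mod_cast this
  have hFv : ∀ J : FI K, J ≠ 0 → ∀ s : ℂ, 1 < s.re → F J s = (c : ℂ) * Ga K s *
      ∑' I : IJ K J, ((Ideal.absNorm (I : Ideal (𝓞 K)) : ℕ) : ℂ) ^ (-s) := by
    intro J hJ s hs
    have h1 := ((hΛ J hJ).2.1 s hs).2
    have h2 := hU J hJ s hs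
    have hne : ((FractionalIdeal.absNorm J : ℝ) : ℂ) ≠ 0 := by
      have := (hnn J hJ).ne'
      exact_mod_cast this
    rw [hF]
    show ((FractionalIdeal.absNorm J : ℝ) : ℂ) ^ s * Λ J s = _
    rw [h1, h2, Complex.cpow_neg]
    have h3 : ((FractionalIdeal.absNorm J : ℝ) : ℂ) ^ s ≠ 0 := by
      rw [Ne, Complex.cpow_eq_zero_iff]
      intro h'
      exact hne h'.1
    field_simp
  obtain ⟨Z, hZ⟩ : ∃ Z : ℂ → ℂ, Z = fun s => (c : ℂ)⁻¹ * ∑ C, F (R C) s := ⟨_, rfl⟩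
  obtain ⟨Z', hZ'⟩ : ∃ Z' : ℂ → ℂ, Z' = fun s => (c : ℂ)⁻¹ * ∑ C, F (du K (R C)) s := ⟨_, rfl⟩
  have hZd : DifferentiableOn ℂ Z {0, 1}ᶜ := by
    rw [hZ]
    apply DifferentiableOn.const_mul
    apply DifferentiableOn.fun_sum
    intro C _
    exact hFd _ (hR0 C)
  have hZd' : DifferentiableOn ℂ Z' {0, 1}ᶜ := by
    rw [hZ']
    apply DifferentiableOn.const_mul
    apply DifferentiableOn.fun_sum
    intro C _
    exact hFd _ (hdR0 C)
  have hZv : ∀ s : ℂ, 1 < s.re → Z s = Ga K s * dedekindZeta K s := by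
    intro s hs
    rw [hZ]
    show (c : ℂ)⁻¹ * ∑ C, F (R C) s = _
    have : ∑ C, F (R C) s = (c : ℂ) * Ga K s *
        ∑ C, ∑' I : IJ K (R C), ((Ideal.absNorm (I : Ideal (𝓞 K)) : ℕ) : ℂ) ^ (-s) := by
      rw [Finset.mul_sum]
      exact Finset.sum_congr rfl fun C _ => hFv _ (hR0 C) s hs
    rw [this, (hR s hs).1]
    field_simp
  have hZv' : ∀ s : ℂ, 1 < s.re → Z' s = Ga K s * dedekindZeta K s := by
    intro s hs
    rw [hZ']
    show (c : ℂ)⁻¹ * ∑ C, F (du K (R C)) s = _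
    have : ∑ C, F (du K (R C)) s = (c : ℂ) * Ga K s *
        ∑ C, ∑' I : IJ K (du K (R C)), ((Ideal.absNorm (I : Ideal (𝓞 K)) : ℕ) : ℂ) ^ (-s) := by
      rw [Finset.mul_sum]
      exact Finset.sum_congr rfl fun C _ => hFv _ (hdR0 C) s hs
    rw [this, (hR s hs).2]
    field_simp
  have hZZ := FE_id hZd hZd' fun s hs => (hZv s hs).trans (hZv' s hs).symm
  have hZf : ∀ s : ℂ, s ≠ 0 → s ≠ 1 → Z (1 - s) = (D : ℂ) ^ (s - 1 / 2) * Z s := by
    intro s h0 h1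
    rw [hZZ s h0 h1, hZ, hZ']
    show (c : ℂ)⁻¹ * ∑ C, F (R C) (1 - s) = (D : ℂ) ^ (s - 1 / 2) * ((c : ℂ)⁻¹ * ∑ C, F (du K (R C)) s)
    have : ∑ C, F (R C) (1 - s) = (D : ℂ) ^ (s - 1 / 2) * ∑ C, F (du K (R C)) s := by
      rw [Finset.mul_sum]
      apply Finset.sum_congr rfl
      intro C _
      have h2 := (hΛ (R C) (hR0 C)).2.2 s h0 h1
      have h3 := (hDUA K (R C) (hR0 C)).2.2.2
      rw [← hD] at h2 h3
      have h4 := FE_pow hD0 (hnn _ (hR0 C)) (hnn _ (hdR0 C)) h3 s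
      rw [hF]
      show ((FractionalIdeal.absNorm (R C) : ℝ) : ℂ) ^ (1 - s) * Λ (R C) (1 - s) =
        (D : ℂ) ^ (s - 1 / 2) * (((FractionalIdeal.absNorm (du K (R C)) : ℝ) : ℂ) ^ s *
          Λ (du K (R C)) s)
      rw [h2, ← mul_assoc, h4, mul_assoc]
    rw [this]
    ring
  have hDc : (D : ℂ) ≠ 0 := by exact_mod_cast hD0.ne'
  refine ⟨fun s => (D : ℂ) ^ (s / 2) * Z s, ?_, ?_, ?_⟩
  · apply DifferentiableOn.mul _ hZd
    intro s _
    apply DifferentiableAt.differentiableWithinAt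
    apply DifferentiableAt.const_cpow (differentiableAt_id.div_const 2)
    left
    exact hDc
  · intro s h0 h1
    show (D : ℂ) ^ ((1 - s) / 2) * Z (1 - s) = (D : ℂ) ^ (s / 2) * Z s
    rw [hZf s h0 h1, ← mul_assoc, ← Complex.cpow_add _ _ hDc]
    congr 2
    ring
  · intro s hs
    show (D : ℂ) ^ (s / 2) * Z s = _
    rw [hZv s hs, hD]
    ring

end Pool.Agent.RB
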